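import Pool.Agent.Lib.MP_0e7911_co_full.PathDefs
import Pool.Agent.Lib.MP_0e7911_co_h13.FPsum

/-!
# The base system: the axioms of `Sys` for symmetric functions
-/

set_option autoImplicit false

namespace Pool.Agent.Lib.MP_0e7911_co_full

open Finset Pool.Agent.Lib.MP_0e7911_co_h56 Pool.Agent.Lib.MP_0e7911_co_h50

variable {K : Type*} [Field K]

namespace BaseSys

open B3

/-! ### scalar identities -/

theorem hqt_rec (q t : K) (c : ℕ) :
    hqt q t (c + 2) = (q + t) * hqt q t (c + 1) - q * t * hqt q t c := by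
  have h1 : ∀ n : ℕ, hqt q t (n + 1) = q * hqt q t n + t ^ (n + 1) := by
    intro n
    unfold hqt
    rw [Finset.sum_range_succ' _ (n + 1), Finset.mul_sum]
    simp only [pow_zero, one_mul, Nat.sub_zero]
    congr 1
    apply Finset.sum_congr rfl
    intro i hi
    have : n + 1 - (i + 1) = n - i := by omega
    rw [this]
    ring
  rw [h1 (c + 1), h1 c]
  ring

theorem hqt_zero (q t : K) : hqt q t 0 = 1 := by simp [hqt]

theorem hqt_one (q t : K) : hqt q t 1 = q + t := by
  simp [hqt, Finset.sum_range_succ]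
  ring

/-- coefficients of `W(u) = (1 - p u) Ω(u)` -/
def Wc (q t : K) : ℕ → K
  | 0 => 1
  | c + 1 => Om q t (c + 1) - q * t * Om q t c

theorem Wc_succ (q t : K) (c : ℕ) : Wc q t (c + 1) = Bc q t (c + 1) := by
  rcases c with _ | c
  · simp only [Wc, Om, Bc, MM]
    rw [zero_add, hqt_zero, hqt_one]
    ring
  · simp only [Wc, Om, Bc, MM]
    rw [show c + 1 + 1 = c + 2 from rfl, hqt_rec]
    ring

theorem Bc_succ (q t : K) (c : ℕ) : Bc q t (c + 1) = Bc q t c - MM q t * Om q t c := by
  rcases c with _ | c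
  · simp only [Om, Bc]
    rw [hqt_zero]
    ring
  · simp only [Om, Bc]
    ring

/-! ### Newton pairs -/

theorem newt_geom (a : K) : Newt (fun i => a ^ i) (fun i => a ^ i) := by
  refine ⟨by simp, fun n hn => ?_⟩
  have h1 : ∀ i ∈ Icc 1 n, a ^ i * a ^ (n - i) = a ^ n := by
    intro i hi
    rw [mem_Icc] at hi
    rw [← pow_add]
    congr 1
    omega
  rw [Finset.sum_congr rfl h1, Finset.sum_const, Nat.card_Icc, nsmul_eq_mul, Nat.add_sub_cancel]

/-- the coefficients of `1 - a u` -/
def lin (a : K) : ℕ → K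
  | 0 => 1
  | 1 => -a
  | _ + 2 => 0

theorem sum_lin_zero (a : K) (x : ℕ → K) :
    ∑ i ∈ range (0 + 1), x i * lin a (0 - i) = x 0 := by
  simp [lin]

theorem sum_lin_succ (a : K) (x : ℕ → K) (n : ℕ) :
    ∑ i ∈ range (n + 1 + 1), x i * lin a (n + 1 - i) = x (n + 1) - a * x n := by
  rw [Finset.sum_range_succ, Finset.sum_range_succ, Nat.sub_self]
  have h0 : ∑ i ∈ range n, x i * lin a (n + 1 - i) = 0 := by
    apply Finset.sum_eq_zero
    intro i hi
    rw [mem_range] at hi
    obtain ⟨k, hk⟩ : ∃ k, n + 1 - i = k + 2 := ⟨n - 1 - i, by omega⟩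
    rw [hk]
    simp [lin]
  have h1 : n + 1 - n = 1 := by omega
  rw [h0, h1]
  simp only [lin]
  ring

theorem newt_lin (a : K) : Newt (fun i => - a ^ i) (lin a) := by
  refine ⟨rfl, fun n hn => ?_⟩
  obtain ⟨m, rfl⟩ : ∃ m, n = m + 1 := ⟨n - 1, by omega⟩
  have h1 := sum_range_Icc (fun i => (- a ^ i) * lin a (m + 1 - i)) (m + 1)
  rw [sum_lin_succ a (fun i => - a ^ i) m] at h1
  have h2 : ∑ i ∈ Icc 1 (m + 1), (- a ^ i) * lin a (m + 1 - i) = lin a (m + 1) := by
    have h3 : ((- a ^ 0) * lin a (m + 1 - 0) : K) = - lin a (m + 1) := by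
      simp
    rw [h3] at h1
    have h4 : (- a ^ (m + 1) - a * - a ^ m : K) = 0 := by
      rw [pow_succ]
      ring
    rw [h4] at h1
    linear_combination -h1
  rw [h2]
  rcases m with _ | m
  · simp
  · simp [lin]

theorem Newt.congr' {A : Type*} [CommRing A] {P x y : ℕ → A} (hx : Newt P x)
    (h : ∀ n, x n = y n) : Newt P y := by
  have : x = y := funext h
  rwa [← this]

/-- `W(u) = (1 - u)(1 - p u) / ((1 - q u)(1 - t u))` -/
theorem newt_W (q t : K) : Newt (fun i => - ((1 - q ^ i) * (1 - t ^ i))) (Wc q t) := by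
  have h1 : Newt (fun i => q ^ i + t ^ i) (hqt q t) := (newt_geom q).prod (newt_geom t)
  have h2 : Newt (fun i => q ^ i + t ^ i + - 1 ^ i) (Om q t) := by
    apply Newt.congr' (h1.prod (newt_lin 1))
    intro n
    rcases n with _ | n
    · rw [sum_lin_zero, hqt_zero]
      rfl
    · rw [sum_lin_succ, one_mul]
      rfl
  have h3 : Newt (fun i => q ^ i + t ^ i + - 1 ^ i + - (q * t) ^ i) (Wc q t) := by
    apply Newt.congr' (h2.prod (newt_lin (q * t)))
    intro n
    rcases n with _ | n
    · rw [sum_lin_zero]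
      rfl
    · rw [sum_lin_succ]
      rfl
  apply h3.congr
  intro i _
  rw [mul_pow, one_pow]
  ring

/-! ### kernels -/

/-- `∑_{i + c = h} (-1)^i e_i a_c y^c` -/
noncomputable def ker (a : ℕ → K) (h : ℕ) : Polynomial (SymF K) :=
  ∑ x ∈ antidiagonal h,
    Polynomial.C (et K x.1 * MvPolynomial.C (a x.2)) * Polynomial.X ^ x.2

theorem ker_succ (a : ℕ → K) (h : ℕ) :
    ker a (h + 1) = Polynomial.C (et K (h + 1) * MvPolynomial.C (a 0)) +
      Polynomial.X * ker (fun c => a (c + 1)) h := by
  unfold ker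
  rw [Finset.Nat.sum_antidiagonal_succ', Finset.mul_sum]
  have h1 : ∀ x ∈ antidiagonal h, (Polynomial.C (et K x.1 * MvPolynomial.C (a (x.2 + 1))) *
      Polynomial.X ^ (x.2 + 1) : Polynomial (SymF K)) =
      Polynomial.X * (Polynomial.C (et K x.1 * MvPolynomial.C (a (x.2 + 1))) *
        Polynomial.X ^ x.2) := by
    intro x _
    rw [pow_succ' Polynomial.X, mul_left_comm]
  rw [Finset.sum_congr rfl h1]
  rw [pow_zero, mul_one]

theorem ker_lin (a b : ℕ → K) (r : K) (h : ℕ) :
    ker (fun c => a c - r * b c) h = ker a h - r • ker b h := by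
  unfold ker
  rw [Finset.smul_sum, ← Finset.sum_sub_distrib]
  apply Finset.sum_congr rfl
  intro x _
  rw [map_sub, map_mul (MvPolynomial.C : K →+* SymF K)]
  have h1 : r • (Polynomial.C (et K x.1 * MvPolynomial.C (b x.2)) * Polynomial.X ^ x.2 :
      Polynomial (SymF K)) = Polynomial.C (MvPolynomial.C r * (et K x.1 * MvPolynomial.C (b x.2))) *
      Polynomial.X ^ x.2 := by
    rw [← MvPolynomial.smul_eq_C_mul, ← Polynomial.smul_C, smul_mul_assoc]
  rw [h1, ← sub_mul, ← map_sub]
  congr 2
  ring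

theorem ker_W (q t : K) (h : ℕ) :
    ker (Wc q t) h = Polynomial.C (et K h) + ker (Bc q t) h := by
  rcases h with _ | h
  · simp [ker, Wc, Bc]
  · rw [ker_succ, ker_succ]
    have h1 : (fun c => Wc q t (c + 1)) = fun c => Bc q t (c + 1) := funext (Wc_succ q t)
    rw [h1]
    have h2 : Wc q t 0 = 1 := rfl
    have h3 : Bc q t 0 = 0 := rfl
    rw [h2, h3]
    simp

theorem ker_W_succ (q t : K) (h : ℕ) :
    ker (Wc q t) (h + 1) = ker (Om q t) (h + 1) -
      (q * t) • (Polynomial.X * ker (Om q t) h) := by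
  rw [ker_succ, ker_succ (Om q t)]
  have h1 : (fun c => Wc q t (c + 1)) = fun c => Om q t (c + 1) - (q * t) * Om q t c := rfl
  rw [h1, ker_lin (fun c => Om q t (c + 1)) (Om q t) (q * t) h]
  have h2 : Wc q t 0 = 1 := rfl
  have h3 : Om q t 0 = 1 := rfl
  rw [h2, h3, mul_sub, mul_smul_comm]
  ring

theorem ker_B_succ (q t : K) (h : ℕ) :
    ker (Bc q t) (h + 1) = Polynomial.X * ker (Bc q t) h -
      MM q t • (Polynomial.X * ker (Om q t) h) := by
  rw [ker_succ]
  have h1 : (fun c => Bc q t (c + 1)) = fun c => Bc q t c - MM q t * Om q t c :=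
    funext (Bc_succ q t)
  rw [h1, ker_lin (Bc q t) (Om q t) (MM q t) h]
  have h3 : Bc q t 0 = 0 := rfl
  rw [h3, mul_sub, mul_smul_comm]
  simp

/-! ### the values on monomials -/

theorem polyLin_monomial {W : Type*} [AddCommGroup W] [Module K W] (f : ℕ → SymF K →ₗ[K] W)
    (h : ℕ) (G : SymF K) : polyLin f (Polynomial.monomial h G) = f h G := by
  change (Polynomial.monomial h G).sum (fun h G => f h G) = _
  rw [Polynomial.sum_monomial_index _ _ (by simp)]

theorem dB_monomial (h : ℕ) (G : SymF K) : dB K (Polynomial.monomial h G) = et K h * G := by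
  unfold dB
  rw [polyLin_monomial]
  rfl

theorem ZB_monomial (q t : K) (h : ℕ) (G : SymF K) :
    ZB q t (Polynomial.monomial h G) = ker (Om q t) h * ioA q t G := by
  unfold ZB
  rw [polyLin_monomial]
  rfl

theorem DDB_monomial (q t : K) (h : ℕ) (G : SymF K) :
    DDB q t (Polynomial.monomial h G) =
      Polynomial.monomial h (D0 q t G) + ker (Bc q t) h * ioA q t G := by
  unfold DDB
  rw [polyLin_monomial]
  change Polynomial.X ^ h * Polynomial.C (D0 q t G) + _ = _
  rw [mul_comm, Polynomial.C_mul_X_pow_eq_monomial]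
  rfl

theorem yB_apply (v : Polynomial (SymF K)) : yB K v = Polynomial.X * v := rfl

theorem EEB_apply (v : Polynomial (SymF K)) : EEB K v = Polynomial.C (- elem K 1) * v := rfl

theorem yB_monomial (h : ℕ) (G : SymF K) :
    yB K (Polynomial.monomial h G) = Polynomial.monomial (h + 1) G := by
  rw [yB_apply, Polynomial.X_mul_monomial]

/-- induction over the monomials -/
theorem lin_ext {W : Type*} [AddCommGroup W] [Module K W] (f g : Polynomial (SymF K) →ₗ[K] W)
    (h : ∀ n G, f (Polynomial.monomial n G) = g (Polynomial.monomial n G))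
    (v : Polynomial (SymF K)) : f v = g v := by
  induction v using Polynomial.induction_on' with
  | add p q hp hq => rw [map_add, map_add, hp, hq]
  | monomial n a => exact h n a

theorem lin_ext3 {W : Type*} [AddCommGroup W] [Module K W]
    (f g k : Polynomial (SymF K) →ₗ[K] W) (c : K)
    (h : ∀ n G, f (Polynomial.monomial n G) =
      g (Polynomial.monomial n G) - c • k (Polynomial.monomial n G))
    (v : Polynomial (SymF K)) : f v = g v - c • k v := by
  have h1 := lin_ext f (g - c • k) (fun n G => by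
    rw [LinearMap.sub_apply, LinearMap.smul_apply]
    exact h n G) v
  rw [h1, LinearMap.sub_apply, LinearMap.smul_apply]

theorem dB_C_mul (G : SymF K) (v : Polynomial (SymF K)) :
    dB K (Polynomial.C G * v) = G * dB K v := by
  have h1 := lin_ext (dB K ∘ₗ LinearMap.mulLeft K (Polynomial.C G))
    (LinearMap.mulLeft K G ∘ₗ dB K) (by
      intro n F
      change dB K (Polynomial.C G * Polynomial.monomial n F) =
        G * dB K (Polynomial.monomial n F)
      rw [Polynomial.C_mul_monomial, dB_monomial, dB_monomial]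
      ring) v
  exact h1

/-! ### `ι` of the elementary functions -/

section char0

variable [CharZero K]

omit [CharZero K] in
theorem ioA_psum (q t : K) (i : ℕ) (hi : 0 < i) :
    ioA q t (psum K i) = Polynomial.C (psum K i) +
      Polynomial.C (MvPolynomial.C ((1 - q ^ i) * (1 - t ^ i))) * Polynomial.X ^ i := by
  unfold ioA psum
  rw [MvPolynomial.aeval_X]
  have : i - 1 + 1 = i := by omega
  rw [this]

theorem ioA_et (q t : K) (n : ℕ) : ioA q t (et K n) = ker (Wc q t) n := by
  have h1 := (newt_elem (K := K)).map (ioA q t).toRingHom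
  have h2 := ((newt_elem (K := K)).map (Polynomial.C : SymF K →+* Polynomial (SymF K))).prod
    (((newt_W q t).map ((Polynomial.C : SymF K →+* Polynomial (SymF K)).comp
      (MvPolynomial.C : K →+* SymF K))).scale Polynomial.X)
  have h3 := h2.congr (P' := fun i => (ioA q t).toRingHom (- psum K i)) (by
    intro i hi
    change Polynomial.C (- psum K i) + Polynomial.X ^ i *
      Polynomial.C (MvPolynomial.C (- ((1 - q ^ i) * (1 - t ^ i)))) = ioA q t (- psum K i)
    rw [map_neg (ioA q t), ioA_psum q t i hi, map_neg, map_neg, map_neg]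
    ring)
  have h4 := Newt.unique (A := Polynomial (SymF K)) (fun m a b hm h => by
    have hne : ((m : ℕ) : Polynomial (SymF K)) ≠ 0 := by exact_mod_cast hm.ne'
    exact mul_left_cancel₀ hne h) h1 h3 n
  change ioA q t (et K n) = _ at h4
  rw [h4]
  unfold ker
  rw [Finset.Nat.sum_antidiagonal_eq_sum_range_succ
    (fun i c => Polynomial.C (et K i * MvPolynomial.C (Wc q t c)) * Polynomial.X ^ c)]
  apply Finset.sum_congr rfl
  intro i _
  change Polynomial.C (et K i) * (Polynomial.X ^ (n - i) *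
    Polynomial.C (MvPolynomial.C (Wc q t (n - i)))) = _
  rw [Polynomial.C_mul]
  ring

omit [CharZero K] in
theorem elem_one : elem K 1 = - et K 1 := by
  simp [et]

theorem ioA_neg_elem_one (q t : K) :
    ioA q t (- elem K 1) = Polynomial.C (- elem K 1) - MM q t • Polynomial.X := by
  rw [elem_one, neg_neg, ioA_et, ker_W]
  have h1 : ker (Bc q t) 1 = - (MM q t • Polynomial.X) := by
    rw [ker_B_succ]
    have h2 : ker (Bc q t) 0 = 0 := by simp [ker, Bc]
    have h3 : ker (Om q t) 0 = 1 := by simp [ker, Om, et, elem]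
    rw [h2, h3]
    simp
  rw [h1]
  ring

end char0

/-! ### symmetry -/

/-- the coefficients of `ι` -/
noncomputable def T (q t : K) (j : ℕ) (F : SymF K) : SymF K := (ioA q t F).coeff j

theorem T_add (q t : K) (j : ℕ) (F G : SymF K) : T q t j (F + G) = T q t j F + T q t j G := by
  unfold T
  rw [map_add, Polynomial.coeff_add]

theorem T_zero (q t : K) (j : ℕ) : T q t j 0 = 0 := by
  unfold T
  rw [map_zero, Polynomial.coeff_zero]

theorem T_C (q t : K) (j : ℕ) (a : K) :
    T q t j (MvPolynomial.C a) = if j = 0 then MvPolynomial.C a else 0 := by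
  unfold T ioA
  rw [MvPolynomial.aeval_C]
  change (Polynomial.C (MvPolynomial.C a)).coeff j = _
  rw [Polynomial.coeff_C]

theorem T_C_mul (q t : K) (j : ℕ) (a : K) (F : SymF K) :
    T q t j (MvPolynomial.C a * F) = MvPolynomial.C a * T q t j F := by
  unfold T
  rw [← MvPolynomial.smul_eq_C_mul, map_smul, Polynomial.coeff_smul, MvPolynomial.smul_eq_C_mul]

theorem T_mul_X (q t : K) (j k : ℕ) (F : SymF K) :
    T q t j (F * MvPolynomial.X k) = T q t j F * MvPolynomial.X k +
      (if k + 1 ≤ j then MvPolynomial.C ((1 - q ^ (k + 1)) * (1 - t ^ (k + 1))) *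
        T q t (j - (k + 1)) F else 0) := by
  unfold T
  rw [map_mul]
  have h1 : ioA q t (MvPolynomial.X k) = Polynomial.C (MvPolynomial.X k) +
      Polynomial.C (MvPolynomial.C ((1 - q ^ (k + 1)) * (1 - t ^ (k + 1)))) *
      Polynomial.X ^ (k + 1) := by
    unfold ioA
    rw [MvPolynomial.aeval_X]
  rw [h1, mul_add, Polynomial.coeff_add, Polynomial.coeff_mul_C, ← mul_assoc,
    Polynomial.coeff_mul_X_pow', Polynomial.coeff_mul_C]
  congr 1
  split_ifs with h
  · ring
  · rfl

theorem T_comm (q t : K) (F : SymF K) :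
    ∀ i j, T q t i (T q t j F) = T q t j (T q t i F) := by
  induction F using MvPolynomial.induction_on with
  | C a =>
    intro i j
    rw [T_C, T_C]
    split_ifs with h1 h2 h2
    · rw [T_C, T_C, if_pos h1, if_pos h2]
    · rw [T_C, T_zero, if_neg h2]
    · rw [T_C, T_zero, if_neg h1]
    · rw [T_zero, T_zero]
  | add F G hF hG =>
    intro i j
    rw [T_add, T_add, T_add, T_add, hF, hG]
  | mul_X F k hF =>
    intro i j
    rw [T_mul_X, T_mul_X, T_add, T_add, T_mul_X, T_mul_X, hF i j]
    have h1 : ∀ i j : ℕ, T q t i (if k + 1 ≤ j then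
        MvPolynomial.C ((1 - q ^ (k + 1)) * (1 - t ^ (k + 1))) * T q t (j - (k + 1)) F else 0) =
        if k + 1 ≤ j then
        MvPolynomial.C ((1 - q ^ (k + 1)) * (1 - t ^ (k + 1))) *
          T q t i (T q t (j - (k + 1)) F) else 0 := by
      intro i j
      split_ifs with h
      · rw [T_C_mul]
      · rw [T_zero]
    rw [h1, h1, hF i (j - (k + 1)), hF j (i - (k + 1))]
    ring

/-! ### the axioms -/

theorem polyLin_sum {W : Type*} [AddCommGroup W] [Module K W] (f : ℕ → SymF K →ₗ[K] W)
    (v : Polynomial (SymF K)) (N : ℕ) (hN : ∀ j, N ≤ j → v.coeff j = 0) :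
    polyLin f v = ∑ j ∈ range N, f j (v.coeff j) := by
  change v.sum (fun h G => f h G) = _
  unfold Polynomial.sum
  apply Finset.sum_subset
  · intro j hj
    rw [Polynomial.mem_support_iff] at hj
    rw [mem_range]
    by_contra hlt
    exact hj (hN j (by omega))
  · intro j _ hj
    rw [Polynomial.notMem_support_iff] at hj
    rw [hj]
    exact map_zero (f j)

theorem dB_sum (v : Polynomial (SymF K)) (N : ℕ) (hN : ∀ j, N ≤ j → v.coeff j = 0) :
    dB K v = ∑ j ∈ range N, et K j * v.coeff j := by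
  unfold dB
  rw [polyLin_sum _ v N hN]
  rfl

theorem eq_sum_monomial (v : Polynomial (SymF K)) (N : ℕ) (hN : ∀ j, N ≤ j → v.coeff j = 0) :
    v = ∑ j ∈ range N, Polynomial.monomial j (v.coeff j) := by
  ext1 n
  rw [Polynomial.finsetSum_coeff]
  simp only [Polynomial.coeff_monomial]
  rw [Finset.sum_ite_eq' (range N) n (fun j => v.coeff j)]
  split_ifs with h
  · rfl
  · exact hN n (by simpa using h)

theorem exists_bound (v : Polynomial (SymF K)) : ∃ N, ∀ j, N ≤ j → v.coeff j = 0 :=
  ⟨v.natDegree + 1, fun j hj => Polynomial.coeff_eq_zero_of_natDegree_lt (by omega)⟩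

section char0'

variable [CharZero K]

theorem ax_DD_io (q t : K) (v : SymF K) :
    DDB q t (ioA q t v) = ioA q t (dB K (ioA q t v)) := by
  obtain ⟨N, hN⟩ := exists_bound (ioA q t v)
  have hT : ∀ j, N ≤ j → T q t j v = 0 := hN
  have e1 : DDB q t (ioA q t v) = ∑ j ∈ range N, (Polynomial.monomial j (D0 q t (T q t j v)) +
      ker (Bc q t) j * ioA q t (T q t j v)) := by
    conv_lhs => rw [eq_sum_monomial (ioA q t v) N hN, map_sum]
    apply Finset.sum_congr rfl
    intro j _
    rw [DDB_monomial]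
    rfl
  have e2 : ioA q t (dB K (ioA q t v)) = ∑ j ∈ range N, (Polynomial.C (et K j) *
      ioA q t (T q t j v) + ker (Bc q t) j * ioA q t (T q t j v)) := by
    rw [dB_sum _ N hN, map_sum]
    apply Finset.sum_congr rfl
    intro j _
    rw [map_mul, ioA_et, ker_W, add_mul]
    rfl
  rw [e1, e2, Finset.sum_add_distrib, Finset.sum_add_distrib]
  congr 1
  ext1 n
  rw [Polynomial.finsetSum_coeff, Polynomial.finsetSum_coeff]
  simp only [Polynomial.coeff_monomial, Polynomial.coeff_C_mul]
  rw [Finset.sum_ite_eq' (range N) n (fun j => D0 q t (T q t j v))]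
  have h1 : ∀ j ∈ range N, et K j * (ioA q t (T q t j v)).coeff n =
      et K j * (ioA q t (T q t n v)).coeff j := by
    intro j _
    congr 1
    exact T_comm q t v n j
  rw [Finset.sum_congr rfl h1]
  have h2 : D0 q t (T q t n v) = ∑ j ∈ range N, et K j * (ioA q t (T q t n v)).coeff j := by
    change dB K (ioA q t (T q t n v)) = _
    apply dB_sum
    intro j hj
    change T q t j (T q t n v) = 0
    rw [T_comm, hT j hj, T_zero]
  rw [← h2]
  split_ifs with h
  · rfl
  · rw [hT n (by simpa using h), map_zero]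

theorem ax_D_d (q t : K) (v : Polynomial (SymF K)) :
    dB K (ioA q t (dB K v)) = dB K (DDB q t v) := by
  apply lin_ext (dB K ∘ₗ (ioA q t).toLinearMap ∘ₗ dB K) (dB K ∘ₗ DDB q t)
  intro n G
  change dB K (ioA q t (dB K (Polynomial.monomial n G))) =
    dB K (DDB q t (Polynomial.monomial n G))
  rw [dB_monomial, DDB_monomial, map_mul, ioA_et, ker_W, add_mul, map_add, map_add, dB_monomial,
    dB_C_mul]
  rfl

theorem ax_io_d_y (q t : K) (v : Polynomial (SymF K)) :
    ioA q t (dB K (yB K v)) = ZB q t (yB K v) - (q * t) • yB K (ZB q t v) := by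
  refine lin_ext3 ((ioA q t).toLinearMap ∘ₗ dB K ∘ₗ yB K) (ZB q t ∘ₗ yB K) (yB K ∘ₗ ZB q t)
    (q * t) (fun n G => ?_) v
  rw [LinearMap.comp_apply, LinearMap.comp_apply, LinearMap.comp_apply, LinearMap.comp_apply,
    AlgHom.toLinearMap_apply]
  rw [yB_monomial, dB_monomial, ZB_monomial, ZB_monomial, map_mul, ioA_et, ker_W_succ, yB_apply,
    sub_mul, smul_mul_assoc, mul_assoc]

omit [CharZero K] in
theorem ax_DD_y (q t : K) (v : Polynomial (SymF K)) :
    DDB q t (yB K v) = yB K (DDB q t v) - MM q t • yB K (ZB q t v) := by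
  refine lin_ext3 (DDB q t ∘ₗ yB K) (yB K ∘ₗ DDB q t) (yB K ∘ₗ ZB q t)
    (MM q t) (fun n G => ?_) v
  rw [LinearMap.comp_apply, LinearMap.comp_apply, LinearMap.comp_apply]
  rw [yB_monomial, DDB_monomial, DDB_monomial, ZB_monomial, map_add, yB_monomial, yB_apply,
    yB_apply, ker_B_succ, sub_mul, smul_mul_assoc, mul_assoc, mul_assoc]
  ring

omit [CharZero K] in
theorem ZB_C (q t : K) (G : SymF K) : ZB q t (Polynomial.C G) = ioA q t G := by
  rw [← Polynomial.monomial_zero_left, ZB_monomial]
  have h3 : ker (Om q t) 0 = 1 := by simp [ker, Om, et, elem]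
  rw [h3, one_mul]

omit [CharZero K] in
theorem DDB_C (q t : K) (G : SymF K) : DDB q t (Polynomial.C G) = Polynomial.C (D0 q t G) := by
  rw [← Polynomial.monomial_zero_left, DDB_monomial]
  have h3 : ker (Bc q t) 0 = 0 := by simp [ker, Bc]
  rw [h3, zero_mul, add_zero, Polynomial.monomial_zero_left]

theorem ax_DD_Z (q t : K) (v : Polynomial (SymF K)) :
    DDB q t (ZB q t v) = ZB q t (DDB q t v) := by
  -- the commutator
  have hC : ∀ w, DDB q t (ZB q t (yB K w)) - ZB q t (DDB q t (yB K w)) =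
      (q * t) • yB K (DDB q t (ZB q t w) - ZB q t (DDB q t w)) := by
    intro w
    have a1 : ZB q t (yB K w) = ioA q t (dB K (yB K w)) + (q * t) • yB K (ZB q t w) := by
      rw [ax_io_d_y]
      abel
    have a2 : ZB q t (yB K (DDB q t w)) = ioA q t (dB K (yB K (DDB q t w))) +
        (q * t) • yB K (ZB q t (DDB q t w)) := by
      rw [ax_io_d_y]
      abel
    have a3 : ZB q t (yB K (ZB q t w)) = ioA q t (dB K (yB K (ZB q t w))) +
        (q * t) • yB K (ZB q t (ZB q t w)) := by
      rw [ax_io_d_y]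
      abel
    have a4 : DDB q t (ioA q t (dB K (yB K w))) =
        ioA q t (dB K (yB K (DDB q t w))) - MM q t • ioA q t (dB K (yB K (ZB q t w))) := by
      rw [ax_DD_io, ax_D_d, ax_DD_y, map_sub, map_smul, map_sub, map_smul]
    rw [a1, map_add, map_smul, a4, ax_DD_y q t w, ax_DD_y q t (ZB q t w), map_sub, map_smul, a2,
      a3, map_sub]
    simp only [smul_sub, smul_add, smul_smul]
    rw [mul_comm (q * t) (MM q t)]
    abel
  have h0 : ∀ n G, DDB q t (ZB q t (Polynomial.monomial n G)) =
      ZB q t (DDB q t (Polynomial.monomial n G)) := by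
    intro n G
    induction n with
    | zero =>
      rw [Polynomial.monomial_zero_left, ZB_C, DDB_C, ZB_C, ax_DD_io]
      rfl
    | succ n ih =>
      have h1 := hC (Polynomial.monomial n G)
      rw [yB_monomial, ih, sub_self, map_zero, smul_zero] at h1
      exact sub_eq_zero.1 h1
  exact lin_ext (DDB q t ∘ₗ ZB q t) (ZB q t ∘ₗ DDB q t) h0 v

omit [CharZero K] in
theorem ax_E_d (v : Polynomial (SymF K)) : EB K (dB K v) = dB K (EEB K v) := by
  change - elem K 1 * dB K v = dB K (Polynomial.C (- elem K 1) * v)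
  rw [dB_C_mul]

theorem ax_io_E (q t : K) (v : SymF K) :
    ioA q t (EB K v) = EEB K (ioA q t v) - MM q t • yB K (ioA q t v) := by
  change ioA q t (- elem K 1 * v) = Polynomial.C (- elem K 1) * ioA q t v -
    MM q t • (Polynomial.X * ioA q t v)
  rw [map_mul, ioA_neg_elem_one, sub_mul, smul_mul_assoc]

theorem ax_Z_EE (q t : K) (v : Polynomial (SymF K)) :
    ZB q t (EEB K v) = EEB K (ZB q t v) - MM q t • yB K (ZB q t v) := by
  refine lin_ext3 (ZB q t ∘ₗ EEB K) (EEB K ∘ₗ ZB q t) (yB K ∘ₗ ZB q t)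
    (MM q t) (fun n G => ?_) v
  rw [LinearMap.comp_apply, LinearMap.comp_apply, LinearMap.comp_apply, EEB_apply, EEB_apply,
    yB_apply]
  rw [Polynomial.C_mul_monomial, ZB_monomial, ZB_monomial, map_mul, ioA_neg_elem_one, sub_mul,
    smul_mul_assoc, mul_sub, mul_smul_comm]
  rw [mul_left_comm, mul_left_comm (ker (Om q t) n) Polynomial.X]

omit [CharZero K] in
theorem ax_y_EE (v : Polynomial (SymF K)) : yB K (EEB K v) = EEB K (yB K v) := by
  change Polynomial.X * (Polynomial.C (- elem K 1) * v) =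
    Polynomial.C (- elem K 1) * (Polynomial.X * v)
  ring

end char0'

end BaseSys

open BaseSys

/-- the base system -/
noncomputable def baseSys [CharZero K] (q t : K) : Sys q t (SymF K) (Polynomial (SymF K)) where
  d := dB K
  io := (ioA q t).toLinearMap
  y := yB K
  Z := ZB q t
  DD := DDB q t
  E := EB K
  EE := EEB K
  DD_io := ax_DD_io q t
  D_d := ax_D_d q t
  DD_Z := ax_DD_Z q t
  DD_y := ax_DD_y q t
  io_d_y := ax_io_d_y q t
  E_d := ax_E_d
  io_E := ax_io_E q t
  Z_EE := ax_Z_EE q t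
  y_EE := ax_y_EE

end Pool.Agent.Lib.MP_0e7911_co_full
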